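import Pool.Agent.L7h17.OC.Stm

/-! Project OC: CNT6. -/

set_option autoImplicit false

namespace Pool.Agent.L7h99.OC

open Pool.Agent.L7h17.OC

/-- a continuous function without zero on an interval has the same sign at both ends -/
theorem same_sign (p : Polynomial ℝ) {u v : ℝ} (huv : u ≤ v)
    (h : ∀ t, u ≤ t → t ≤ v → p.eval t ≠ 0) : 0 < p.eval u * p.eval v := by
  by_contra hcon
  push Not at hcon
  have hc : ContinuousOn (fun t => p.eval t) (Set.Icc u v) := p.continuous.continuousOn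
  have hu := h u le_rfl huv
  have hv := h v huv le_rfl
  rcases lt_or_gt_of_ne hu with h1 | h1
  · have h2 : 0 ≤ p.eval v := by
      by_contra h3
      push Not at h3
      have := mul_pos_of_neg_of_neg h1 h3
      linarith
    obtain ⟨t, ht, ht0⟩ := intermediate_value_Icc huv hc (⟨h1.le, h2⟩ : (0 : ℝ) ∈ Set.Icc _ _)
    exact h t ht.1 ht.2 ht0
  · have h2 : p.eval v ≤ 0 := by
      by_contra h3
      push Not at h3
      have := mul_pos h1 h3
      linarith
    obtain ⟨t, ht, ht0⟩ := intermediate_value_Icc' huv hc (⟨h2, h1.le⟩ : (0 : ℝ) ∈ Set.Icc _ _)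
    exact h t ht.1 ht.2 ht0

theorem s_CNT6 (hA : S_SEVA) (hB : S_SEVB) : S_CNT6 := by
  intro p α β q a b hdeg hcoef hβ hpz hq hband J hJ
  by_contra hcard
  push Not at hcard
  obtain ⟨⟨ha0, hab, hba⟩, hmem, hbz, haz, hneg⟩ := hband
  have hsub : J ⊆ Finset.range q := fun j hj => Finset.mem_range.2 (hJ j hj).1
  have hcardq : J.card ≤ q := by
    have := Finset.card_le_card hsub
    rwa [Finset.card_range] at this
  have hq4 : q = 4 := by omega
  subst hq4
  have hJeq : J = Finset.range 4 := by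
    apply Finset.eq_of_subset_of_card_le hsub
    rw [Finset.card_range]
    omega
  have hbig : ∀ j < 4, Big (fun t => p.eval t) a b j := by
    intro j hj
    apply (hJ j _).2
    rw [hJeq]
    exact Finset.mem_range.2 hj
  have hab0 := hab 0 (by norm_num)
  have hab1 := hab 1 (by norm_num)
  have hab2 := hab 2 (by norm_num)
  have hab3 := hab 3 (by norm_num)
  have hba0 := hba 0 (by norm_num)
  have hba1 := hba 1 (by norm_num)
  have hba2 := hba 2 (by norm_num)
  norm_num at hba0 hba1 hba2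
  have hz : ∀ t : ℝ, 0 < t → ‖β + α * (t : ℂ)‖ ^ 2 - p.eval t ^ 2 = 0 →
      p.eval t ≠ 0 ∧ |p.eval t| = ‖β + α * (t : ℂ)‖ := by
    intro t ht h
    have h1 : p.eval t ^ 2 = ‖β + α * (t : ℂ)‖ ^ 2 := by linarith
    have h2 : |p.eval t| = ‖β + α * (t : ℂ)‖ := by
      rw [← sq_abs] at h1
      exact (pow_left_inj₀ (abs_nonneg _) (norm_nonneg _) two_ne_zero).1 h1
    refine ⟨?_, h2⟩
    intro h3
    apply hpz t ht h3
    rw [h3, abs_zero] at h2
    exact norm_eq_zero.1 h2.symm
  have hbp : ∀ j < 4, 0 < b j := by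
    intro j hj
    interval_cases j <;> linarith
  have hap : ∀ j < 4, 1 ≤ j → 0 < a j := by
    intro j hj hj1
    interval_cases j <;> linarith
  have hbz' : ∀ j < 4, p.eval (b j) ≠ 0 ∧ |p.eval (b j)| = ‖β + α * (b j : ℂ)‖ := fun j hj =>
    hz (b j) (hbp j hj) (hbz j hj)
  have haz' : ∀ j < 4, 1 ≤ j → p.eval (a j) ≠ 0 ∧ |p.eval (a j)| = ‖β + α * (a j : ℂ)‖ := by
    intro j hj hj1
    apply hz (a j) (hap j hj hj1)
    rcases haz j hj with h | h
    · exact absurd h (hap j hj hj1).ne'
    · exact h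
  have hin : ∀ j < 4, 1 ≤ j → 0 < p.eval (a j) * p.eval (b j) := by
    intro j hj hj1
    rcases hbig j hj with h | h
    · exact absurd h (hap j hj hj1).ne'
    · exact h
  have hgap : ∀ j, j + 1 < 4 → 0 < p.eval (b j) * p.eval (a (j + 1)) := by
    intro j hj
    apply same_sign p (hba j hj).le
    intro t h1 h2 h3
    rcases eq_or_lt_of_le h1 with h4 | h4
    · rw [← h4] at h3
      exact (hbz' j (by omega)).1 h3
    · rcases eq_or_lt_of_le h2 with h5 | h5
      · rw [h5] at h3
        exact (haz' (j + 1) hj (by omega)).1 h3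
      · have h6 := hneg j hj t h4 h5
        simp only [h3] at h6
        nlinarith [sq_nonneg ‖β + α * (t : ℂ)‖]
  set x : ℕ → ℝ := fun i => if i % 2 = 0 then b (i / 2) else a ((i + 1) / 2) with hx
  have x0 : x 0 = b 0 := by simp [hx]
  have x1 : x 1 = a 1 := by simp [hx]
  have x2 : x 2 = b 1 := by simp [hx]
  have x3 : x 3 = a 2 := by simp [hx]
  have x4 : x 4 = b 2 := by simp [hx]
  have x5 : x 5 = a 3 := by simp [hx]
  have x6 : x 6 = b 3 := by simp [hx]
  have hlt : ∀ i < 6, x i < x (i + 1) := by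
    intro i hi
    interval_cases i
    · rw [x0, x1]; exact hba0
    · rw [x1, x2]; exact hab1
    · rw [x2, x3]; exact hba1
    · rw [x3, x4]; exact hab2
    · rw [x4, x5]; exact hba2
    · rw [x5, x6]; exact hab3
  have hstep : ∀ i < 6, 0 < p.eval (x i) * p.eval (x (i + 1)) := by
    intro i hi
    interval_cases i
    · rw [x0, x1]; exact hgap 0 (by norm_num)
    · rw [x1, x2]; exact hin 1 (by norm_num) le_rfl
    · rw [x2, x3]; exact hgap 1 (by norm_num)
    · rw [x3, x4]; exact hin 2 (by norm_num) (by norm_num)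
    · rw [x4, x5]; exact hgap 2 (by norm_num)
    · rw [x5, x6]; exact hin 3 (by norm_num) (by norm_num)
  have hval : ∀ i < 7, 0 < x i ∧ |p.eval (x i)| = ‖β + α * (x i : ℂ)‖ := by
    intro i hi
    interval_cases i
    · rw [x0]; exact ⟨hbp 0 (by norm_num), (hbz' 0 (by norm_num)).2⟩
    · rw [x1]; exact ⟨hap 1 (by norm_num) le_rfl, (haz' 1 (by norm_num) le_rfl).2⟩
    · rw [x2]; exact ⟨hbp 1 (by norm_num), (hbz' 1 (by norm_num)).2⟩
    · rw [x3]; exact ⟨hap 2 (by norm_num) (by norm_num), (haz' 2 (by norm_num) (by norm_num)).2⟩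
    · rw [x4]; exact ⟨hbp 2 (by norm_num), (hbz' 2 (by norm_num)).2⟩
    · rw [x5]; exact ⟨hap 3 (by norm_num) (by norm_num), (haz' 3 (by norm_num) (by norm_num)).2⟩
    · rw [x6]; exact ⟨hbp 3 (by norm_num), (hbz' 3 (by norm_num)).2⟩
  have h00 : p.eval (x 0) ≠ 0 := by
    rw [x0]
    exact (hbz' 0 (by norm_num)).1
  have hall : ∀ i, i < 7 → 0 < p.eval (x 0) * p.eval (x i) := by
    intro i
    induction i with
    | zero =>
      intro _
      exact mul_self_pos.2 h00
    | succ i ih =>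
      intro hi
      have h1 := ih (by omega)
      have h2 := hstep i (by omega)
      have h3 := mul_pos h1 h2
      have h4 : 0 < (p.eval (x 0) * p.eval (x (i + 1))) * p.eval (x i) ^ 2 := by
        calc (0 : ℝ) < p.eval (x 0) * p.eval (x i) * (p.eval (x i) * p.eval (x (i + 1))) := h3
          _ = _ := by ring
      exact pos_of_mul_pos_left h4 (sq_nonneg _)
  obtain ⟨s, hs, hsx⟩ : ∃ s : ℝ, (s = 1 ∨ s = -1) ∧ ∀ i < 7, s * p.eval (x i) = |p.eval (x i)| := by
    rcases lt_or_gt_of_ne h00 with h | h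
    · refine ⟨-1, Or.inr rfl, fun i hi => ?_⟩
      have h1 := hall i hi
      have h2 : p.eval (x i) < 0 := by
        by_contra h3
        push Not at h3
        have := mul_nonpos_of_nonpos_of_nonneg h.le h3
        linarith
      rw [abs_of_neg h2]
      ring
    · refine ⟨1, Or.inl rfl, fun i hi => ?_⟩
      have h1 := hall i hi
      have h2 : 0 < p.eval (x i) := pos_of_mul_pos_right h1 h.le
      rw [abs_of_pos h2, one_mul]
  have hfin : ∀ i < 7, 0 < x i ∧ s * p.eval (x i) = ‖β + α * (x i : ℂ)‖ := by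
    intro i hi
    exact ⟨(hval i hi).1, (hsx i hi).trans (hval i hi).2⟩
  by_cases him : ((starRingEnd ℂ) β * α).im = 0
  · exact hB p s α β x hdeg hcoef hs hβ him hpz hlt hfin
  · exact hA p s α β x hdeg hcoef hs him hlt hfin

end Pool.Agent.L7h99.OC
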